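import Pool.Agent.W2helper98.KQ.Main

/-!
# MP_632999_pr: the correlations of the stationary KPZ equation at the scale of the KPZ fixed point

The limit relation of Q1 is derived from three facts on the stationary solution `H` of the KPZ
equation and the stationary KPZ fixed point `K` which are in the literature: the increments of `H` in
space are those of Brownian motion (stationarity), the rescaled `H` converges to `K` in
finite-dimensional distributions (Quastel and Sarkar, Virág), and the rescaled variance of `H`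
converges to the variance of `K` at the ONE point `x = 0` (Borodin, Corwin, Ferrari, Vető). The
convergence in law alone is not sufficient, but the squares are uniformly integrable: at `x = 0` by
the convergence of the variances, and at the other points since the rescaled increments are Gaussian
with a fixed variance.

Proof. For two independent copies of the pair `(X, Y)` the expectation of `(X - X') (Y - Y')` is twice
the covariance, it is dominated by half of `(X - X') ^ 2 + (Y - Y') ^ 2`, and a continuous function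
which is dominated by one whose integrals converge to that of the limit law has the same property.
No information on the deterministic centering is needed.
-/

set_option autoImplicit false

open MeasureTheory ProbabilityTheory Filter Topology

namespace Pool.Agent.Results.MP_632999_pr.CorrelationsAtLimitScale

section

variable {Ω Ω' : Type} [MeasurableSpace Ω] [MeasurableSpace Ω']

/-- The correlation of two random variables. -/
noncomputable def corr (P : Measure Ω) (X Y : Ω → ℝ) : ℝ := cov[X, Y; P] / √(Var[X; P] * Var[Y; P])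

/-- The field rescaled as in the problem file, centred by a deterministic function of the time:
`√ε H(2 ε^(-3/2) t, 2 ε^(-1) x) + c(ε, t)`. -/
noncomputable def resc (H : ℝ → ℝ → Ω → ℝ) (c : ℝ → ℝ → ℝ) (ε t x : ℝ) (ω : Ω) : ℝ :=
  √ε * H (2 * ε ^ (-(3 / 2) : ℝ) * t) (2 * ε⁻¹ * x) ω + c ε t

/-- The facts which are used on the field `H` (the stationary solution of the KPZ equation) and the
limit field `K` (the stationary KPZ fixed point). -/
structure Facts (P : Measure Ω) [IsProbabilityMeasure P] (P' : Measure Ω')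
    [IsProbabilityMeasure P'] (H : ℝ → ℝ → Ω → ℝ) (K : ℝ → ℝ → Ω' → ℝ) : Prop where
  /-- random variables -/
  meas : ∀ t x, AEMeasurable (H t x) P
  /-- the variance is finite at `x = 0` -/
  sq : ∀ t, 0 < t → MemLp (H t 0) 2 P
  /-- the increments in space are those of a Brownian motion -/
  incr : ∀ t x, 0 < t →
    P.map (fun ω => H t x ω - H t 0 ω) = gaussianReal 0 (Real.toNNReal |x|)
  /-- the limit field is square integrable -/
  sqK : ∀ t x, 0 < t → MemLp (K t x) 2 P'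
  /-- the variances of the limit field are positive -/
  posK : ∀ t x, 0 < t → 0 < Var[K t x; P']
  /-- convergence of the laws of the pairs, with a deterministic centering -/
  lim : ∃ c : ℝ → ℝ → ℝ, ∀ t x t' x', 0 < t → 0 < t' → TendstoInDistribution
    (fun ε ω => (resc H c ε t x ω, resc H c ε t' x' ω)) (𝓝[>] 0)
    (fun ω => (K t x ω, K t' x' ω)) (fun _ => P) P'
  /-- convergence of the variance at `x = 0` -/
  var : ∀ t, 0 < t → Tendsto (fun ε : ℝ => ε * Var[H (2 * ε ^ (-(3 / 2) : ℝ) * t) 0; P])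
    (𝓝[>] 0) (𝓝 Var[K t 0; P'])

theorem result (P : Measure Ω) [IsProbabilityMeasure P] (P' : Measure Ω')
    [IsProbabilityMeasure P'] (H : ℝ → ℝ → Ω → ℝ) (K : ℝ → ℝ → Ω' → ℝ) (h : Facts P P' H K)
    (t₁ t₂ x₁ x₂ : ℝ) (ht₁ : 0 < t₁) (ht₂ : 0 < t₂) :
    Tendsto (fun s : ℝ => corr P (H (s * t₁) (s ^ (2 / 3 : ℝ) * x₁))
      (H (s * t₂) (s ^ (2 / 3 : ℝ) * x₂))) atTop
      (𝓝 (corr P' (K t₁ (2 ^ (-(1 / 3) : ℝ) * x₁)) (K t₂ (2 ^ (-(1 / 3) : ℝ) * x₂)))) := by
  obtain ⟨c, hlim⟩ := h.lim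
  obtain ⟨hV, hC⟩ := Pool.Agent.W2helper98.KQ.main (c := c) h.meas h.sq h.incr h.sqK
    (by
      intro t x t' x' ht ht'
      exact hlim t x t' x' ht ht') h.var
  set y₁ : ℝ := 2 ^ (-(1 / 3) : ℝ) * x₁ with hy₁
  set y₂ : ℝ := 2 ^ (-(1 / 3) : ℝ) * x₂ with hy₂
  have hne : √(Var[K t₁ y₁; P'] * Var[K t₂ y₂; P']) ≠ 0 :=
    (Real.sqrt_pos.2 (mul_pos (h.posK t₁ y₁ ht₁) (h.posK t₂ y₂ ht₂))).ne'
  have h1 : Tendsto (fun ε => cov[Pool.Agent.W2helper98.KQ.resc H c ε t₁ y₁,
      Pool.Agent.W2helper98.KQ.resc H c ε t₂ y₂; P] /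
      √(Var[Pool.Agent.W2helper98.KQ.resc H c ε t₁ y₁; P] *
        Var[Pool.Agent.W2helper98.KQ.resc H c ε t₂ y₂; P])) (𝓝[>] 0)
      (𝓝 (corr P' (K t₁ y₁) (K t₂ y₂))) :=
    (hC t₁ y₁ t₂ y₂ ht₁ ht₂).div (((hV t₁ y₁ ht₁).mul (hV t₂ y₂ ht₂)).sqrt) hne
  -- the substitution
  have h2 : Tendsto (fun s : ℝ => (2 / s) ^ (2 / 3 : ℝ)) atTop (𝓝[>] 0) := by
    rw [tendsto_nhdsWithin_iff]
    constructor
    · have h3 : Tendsto (fun s : ℝ => 2 / s) atTop (𝓝 0) := tendsto_const_nhds.div_atTop tendsto_id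
      have h4 := h3.rpow_const (p := (2 / 3 : ℝ)) (Or.inr (by norm_num))
      rwa [Real.zero_rpow (by norm_num)] at h4
    · filter_upwards [eventually_gt_atTop 0] with s hs
      exact Real.rpow_pos_of_pos (by positivity) _
  refine (h1.comp h2).congr' ?_
  filter_upwards [eventually_gt_atTop 0] with s hs
  have hs2 : 0 < 2 / s := by positivity
  have hε : 0 < (2 / s) ^ (2 / 3 : ℝ) := Real.rpow_pos_of_pos hs2 _
  have e1 : 2 * ((2 / s) ^ (2 / 3 : ℝ)) ^ (-(3 / 2) : ℝ) = s := by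
    rw [← Real.rpow_mul hs2.le]
    have : (2 / 3 : ℝ) * (-(3 / 2)) = -1 := by norm_num
    rw [this, Real.rpow_neg_one]
    field_simp
  have e2 : ∀ x : ℝ, 2 * ((2 / s) ^ (2 / 3 : ℝ))⁻¹ * (2 ^ (-(1 / 3) : ℝ) * x) =
      s ^ (2 / 3 : ℝ) * x := by
    intro x
    rw [Real.div_rpow (by norm_num) hs.le, inv_div]
    have h5 : (2 : ℝ) * (2 ^ (-(1 / 3) : ℝ)) = 2 ^ (2 / 3 : ℝ) := by
      nth_rw 1 [← Real.rpow_one (2 : ℝ)]
      rw [← Real.rpow_add (by norm_num)]
      norm_num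
    have h6 : (2 : ℝ) ^ (2 / 3 : ℝ) ≠ 0 := (Real.rpow_pos_of_pos (by norm_num) _).ne'
    have h7 : 2 * (s ^ (2 / 3 : ℝ) / 2 ^ (2 / 3 : ℝ)) * (2 ^ (-(1 / 3) : ℝ) * x) =
        (2 * 2 ^ (-(1 / 3) : ℝ)) * (s ^ (2 / 3 : ℝ) / 2 ^ (2 / 3 : ℝ)) * x := by ring
    rw [h7, h5, mul_div_cancel₀ _ h6]
  have m1 : MemLp (H (2 * ((2 / s) ^ (2 / 3 : ℝ)) ^ (-(3 / 2) : ℝ) * t₁)
      (2 * ((2 / s) ^ (2 / 3 : ℝ))⁻¹ * y₁)) 2 P :=
    (Pool.Agent.W2helper98.KQ.memLp_H h.sq h.meas h.incr _ _ (by rw [e1]; positivity)).2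
  have m2 : MemLp (H (2 * ((2 / s) ^ (2 / 3 : ℝ)) ^ (-(3 / 2) : ℝ) * t₂)
      (2 * ((2 / s) ^ (2 / 3 : ℝ))⁻¹ * y₂)) 2 P :=
    (Pool.Agent.W2helper98.KQ.memLp_H h.sq h.meas h.incr _ _ (by rw [e1]; positivity)).2
  show cov[Pool.Agent.W2helper98.KQ.resc H c _ t₁ y₁,
      Pool.Agent.W2helper98.KQ.resc H c _ t₂ y₂; P] /
      √(Var[Pool.Agent.W2helper98.KQ.resc H c _ t₁ y₁; P] *
        Var[Pool.Agent.W2helper98.KQ.resc H c _ t₂ y₂; P]) = _
  rw [Pool.Agent.W2helper98.KQ.cov_resc hε _ _ _ _ m1 m2,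
    Pool.Agent.W2helper98.KQ.var_resc hε _ _ m1, Pool.Agent.W2helper98.KQ.var_resc hε _ _ m2]
  unfold corr
  rw [e1, hy₁, hy₂, e2, e2]
  have h8 : ∀ u v : ℝ, √((2 / s) ^ (2 / 3 : ℝ) * u * ((2 / s) ^ (2 / 3 : ℝ) * v)) =
      (2 / s) ^ (2 / 3 : ℝ) * √(u * v) := by
    intro u v
    have h9 : (2 / s) ^ (2 / 3 : ℝ) * u * ((2 / s) ^ (2 / 3 : ℝ) * v) =
        ((2 / s) ^ (2 / 3 : ℝ)) ^ 2 * (u * v) := by ring
    rw [h9, Real.sqrt_mul (by positivity), Real.sqrt_sq hε.le]
  rw [h8, mul_div_mul_left _ _ hε.ne']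

end

end Pool.Agent.Results.MP_632999_pr.CorrelationsAtLimitScale
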